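import Pool.Agent.W2helper20.KS.Stm
import Pool.Agent.W2helper25.KB.Semi

/-!
# Piece ABS of project KS
-/

set_option autoImplicit false

namespace Pool.Agent.W2helper98.KS

open Set Metric MeasureTheory Filter Topology
open scoped ContDiff InnerProductSpace ENNReal
open Pool.Agent.Q176.BR Pool.Agent.W2helper20.BC Pool.Agent.W2helper25.KB
open Pool.Agent.W2helper20.KS Pool.Agent.W2helper53.BC

variable {n : ℕ}

/-- measurability of the inner integral -/
theorem meas_inner {g : Fld n} (hg : Continuous g) (F : E n × E n → ℝ) (hF : Continuous F) :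
    Measurable fun x => ∫ v in {v : E n | g x v v ≤ 1}, F (x, v) := by
  have hc : Continuous fun p : E n × E n => g p.1 p.2 p.2 :=
    ((hg.comp continuous_fst).clm_apply continuous_snd).clm_apply continuous_snd
  have hS : MeasurableSet {p : E n × E n | g p.1 p.2 p.2 ≤ 1} :=
    (isClosed_le hc continuous_const).measurableSet
  have h1 : StronglyMeasurable
      ({p : E n × E n | g p.1 p.2 p.2 ≤ 1}.indicator F) :=
    (hF.measurable.indicator hS).stronglyMeasurable
  have h2 := (h1.integral_prod_right' (ν := (volume : Measure (E n)))).measurable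
  have h3 : (fun x => ∫ v in {v : E n | g x v v ≤ 1}, F (x, v)) = fun x =>
      ∫ y, ({p : E n × E n | g p.1 p.2 p.2 ≤ 1}.indicator F) (x, y) := ?_
  · rw [h3]
    exact h2
  funext x
  have hcx : Continuous fun v : E n => g x v v := (g x).continuous.clm_apply continuous_id
  have hSx : MeasurableSet {v : E n | g x v v ≤ 1} :=
    (isClosed_le hcx continuous_const).measurableSet
  rw [← integral_indicator hSx]
  rfl

/-- the fibrewise inequalities -/
theorem pw {C : ℝ} (hT : TraceC n C) {a b : E n →L[ℝ] E n →L[ℝ] ℝ}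
    (ha : ∀ v w, a v w = a w v) (ha' : ∀ v, v ≠ 0 → 0 < a v v)
    (hb : ∀ v w, b v w = b w v) (hb0 : ∀ v, 0 ≤ b v v) :
    (∫⁻ v in {v : E n | a v v ≤ 1}, ENNReal.ofReal (a v v)) =
      ENNReal.ofReal (C * n / √(gram a).det) ∧
    (∫⁻ v in {v : E n | a v v ≤ 1}, ENNReal.ofReal (√(a v v) * √(b v v))) =
      ENNReal.ofReal (∫ v in {v : E n | a v v ≤ 1}, √(a v v) * √(b v v)) ∧
    (∫ v in {v : E n | a v v ≤ 1}, √(a v v) * √(b v v)) ≤
      C / √(gram a).det * (((gram a)⁻¹ * gram b).trace + n) ∧
    (∫ v in {v : E n | a v v ≤ 1}, |b v v - a v v|) ≤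
      C / √(gram a).det * (((gram a)⁻¹ * gram b).trace + n) ∧
    ∀ lam : ℝ, 0 < lam → (∫ v in {v : E n | a v v ≤ 1}, |b v v - a v v|) ≤
      lam / 2 * (C / √(gram a).det * (((gram a)⁻¹ * gram b).trace + n) -
        2 * ∫ v in {v : E n | a v v ≤ 1}, √(a v v) * √(b v v)) +
      1 / (2 * lam) * (2 * (C / √(gram a).det * (((gram a)⁻¹ * gram b).trace + n))) := by
  have ha0 : ∀ v, 0 ≤ a v v := fun v => by
    by_cases h : v = 0
    · simp [h]
    · exact (ha' v h).le
  have hac : Continuous fun v : E n => a v v := by fun_prop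
  have hbc : Continuous fun v : E n => b v v := by fun_prop
  have hsa : Continuous fun v : E n => √(a v v) := hac.sqrt
  have hsb : Continuous fun v : E n => √(b v v) := hbc.sqrt
  obtain ⟨-, hia, hIa⟩ := hT.2 a a ha ha' ha
  obtain ⟨-, hib, hIb⟩ := hT.2 a b ha ha' hb
  rw [Matrix.nonsing_inv_mul _ (IsUnit.mk0 _ (gram_posDef ha ha').det_pos.ne'),
    Matrix.trace_one, Fintype.card_fin] at hIa
  set S : Set (E n) := {v : E n | a v v ≤ 1} with hS
  have hiab : IntegrableOn (fun v : E n => √(a v v) * √(b v v)) S := by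
    refine Integrable.mono' (hia.add hib) (hsa.mul hsb).aestronglyMeasurable
      (Filter.Eventually.of_forall fun v => ?_)
    rw [Real.norm_of_nonneg (by positivity)]
    simp only [Pi.add_apply]
    have h1 := Real.sq_sqrt (ha0 v)
    have h2 := Real.sq_sqrt (hb0 v)
    nlinarith [sq_nonneg (√(a v v) - √(b v v)), sq_nonneg (√(a v v)), sq_nonneg (√(b v v))]
  have hisum : IntegrableOn (fun v : E n => b v v + a v v) S := hib.add hia
  have hidiff : IntegrableOn (fun v : E n => |b v v - a v v|) S := (hib.sub hia).abs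
  have hsum : ∫ v in S, (b v v + a v v) =
      C / √(gram a).det * (((gram a)⁻¹ * gram b).trace + n) := by
    rw [integral_add hib hia, hIa, hIb]
    ring
  refine ⟨?_, ?_, ?_, ?_, ?_⟩
  · rw [← ofReal_integral_eq_lintegral_ofReal hia (Filter.Eventually.of_forall fun v => ha0 v),
      hIa]
    congr 1
    ring
  · exact (ofReal_integral_eq_lintegral_ofReal hiab
      (Filter.Eventually.of_forall fun v => by positivity)).symm
  · rw [← hsum]
    refine integral_mono hiab hisum fun v => ?_
    have h1 := Real.sq_sqrt (ha0 v)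
    have h2 := Real.sq_sqrt (hb0 v)
    show √(a v v) * √(b v v) ≤ b v v + a v v
    nlinarith [sq_nonneg (√(a v v) - √(b v v)), sq_nonneg (√(a v v)), sq_nonneg (√(b v v))]
  · rw [← hsum]
    refine integral_mono hidiff hisum fun v => ?_
    show |b v v - a v v| ≤ b v v + a v v
    rw [abs_le]
    constructor <;> linarith [ha0 v, hb0 v]
  · intro lam hlam
    have hi1 : IntegrableOn (fun v : E n => 2 * (√(a v v) * √(b v v))) S := hiab.const_mul 2
    have hi2 : IntegrableOn (fun v : E n => (b v v + a v v) - 2 * (√(a v v) * √(b v v))) S :=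
      hisum.sub hi1
    have hi3 : IntegrableOn (fun v : E n => lam / 2 * ((b v v + a v v) -
        2 * (√(a v v) * √(b v v)))) S := hi2.const_mul _
    have hi4 : IntegrableOn (fun v : E n => 1 / (2 * lam) * (2 * (b v v + a v v))) S :=
      (hisum.const_mul 2).const_mul _
    have hR : IntegrableOn (fun v : E n => lam / 2 * ((b v v + a v v) -
        2 * (√(a v v) * √(b v v))) + 1 / (2 * lam) * (2 * (b v v + a v v))) S :=
      hi3.add hi4
    have e1 : ∫ v in S, (lam / 2 * ((b v v + a v v) -
        2 * (√(a v v) * √(b v v))) + 1 / (2 * lam) * (2 * (b v v + a v v))) =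
        lam / 2 * (C / √(gram a).det * (((gram a)⁻¹ * gram b).trace + n) -
          2 * ∫ v in S, √(a v v) * √(b v v)) +
        1 / (2 * lam) * (2 * (C / √(gram a).det * (((gram a)⁻¹ * gram b).trace + n))) := by
      rw [integral_add hi3 hi4, integral_const_mul, integral_const_mul,
        integral_const_mul, integral_sub hisum hi1, integral_const_mul, hsum]
    rw [← e1]
    refine integral_mono hidiff hR fun v => ?_
    show |b v v - a v v| ≤ lam / 2 * ((b v v + a v v) -
        2 * (√(a v v) * √(b v v))) + 1 / (2 * lam) * (2 * (b v v + a v v))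
    set p := √(a v v) with hp
    set q := √(b v v) with hq
    have hp0 : 0 ≤ p := Real.sqrt_nonneg _
    have hq0 : 0 ≤ q := Real.sqrt_nonneg _
    have h1 : a v v = p ^ 2 := (Real.sq_sqrt (ha0 v)).symm
    have h2 : b v v = q ^ 2 := (Real.sq_sqrt (hb0 v)).symm
    rw [h1, h2]
    have h3 : |q ^ 2 - p ^ 2| = |q - p| * (q + p) := by
      rw [sq_sub_sq, abs_mul, abs_of_nonneg (by positivity : 0 ≤ q + p), mul_comm]
    rw [h3]
    set s := |q - p| with hs
    have hs2 : s ^ 2 = q ^ 2 + p ^ 2 - 2 * (p * q) := by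
      rw [hs, sq_abs]
      ring
    have h4 : lam / 2 * (q ^ 2 + p ^ 2 - 2 * (p * q)) + 1 / (2 * lam) * (2 * (q ^ 2 + p ^ 2)) -
        s * (q + p) = 1 / (2 * lam) * ((lam * s - (q + p)) ^ 2 + (q - p) ^ 2) := by
      rw [← hs2]
      have : lam ≠ 0 := hlam.ne'
      field_simp
      ring
    have h5 : 0 ≤ 1 / (2 * lam) * ((lam * s - (q + p)) ^ 2 + (q - p) ^ 2) := by positivity
    linarith

theorem p_ABS : P_ABS := by
  intro n C g h k lam hn hT hg hh hk hlam H
  have hn0 : (0 : ℝ) < n := by exact_mod_cast hn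
  have hC := hT.1
  have hgc : Continuous g := hg.smooth.continuous
  have hhc : Continuous h := hh.smooth.continuous
  choose Q1 Q2 Q3 Q4 Q5 using fun x =>
    pw hT (hg.symm x) (hg.pos x) (hh.symm x) (hh.nonneg x)
  have hd : ∀ x, 0 < (gram (g x)).det := hg.det_pos
  have hr : ∀ x, 0 < √(gram (g x)).det := fun x => Real.sqrt_pos.2 (hd x)
  have hrr : ∀ x, (gram (g x)).det = √(gram (g x)).det * √(gram (g x)).det := fun x =>
    (Real.mul_self_sqrt (hd x).le).symm
  set J : E n → ℝ := fun x => ∫ v in {v : E n | g x v v ≤ 1}, √(g x v v) * √(h x v v) with hJ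
  set B : E n → ℝ := fun x => ∫ v in {v : E n | g x v v ≤ 1}, |h x v v - g x v v| with hB
  have hJ0 : ∀ x, 0 ≤ J x := fun x => integral_nonneg fun v => by positivity
  have hB0 : ∀ x, 0 ≤ B x := fun x => integral_nonneg fun v => abs_nonneg _
  -- measurability
  have cg : Continuous fun p : E n × E n => g p.1 p.2 p.2 :=
    ((hgc.comp continuous_fst).clm_apply continuous_snd).clm_apply continuous_snd
  have ch : Continuous fun p : E n × E n => h p.1 p.2 p.2 :=
    ((hhc.comp continuous_fst).clm_apply continuous_snd).clm_apply continuous_snd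
  have hJm : Measurable J := meas_inner hgc (fun p => √(g p.1 p.2 p.2) * √(h p.1 p.2 p.2))
    (cg.sqrt.mul ch.sqrt)
  have hBm : Measurable B := meas_inner hgc (fun p => |h p.1 p.2 p.2 - g p.1 p.2 p.2|)
    (ch.sub cg).abs
  -- continuity
  have hdc : Continuous fun x => (gram (g x)).det := continuous_det hg
  have hc1 : Continuous fun x => √(rho g x) := hdc.sqrt
  have hc2 : Continuous fun x => √(rho g x) * (((gram (g x))⁻¹ * gram (h x)).trace - n) :=
    hc1.mul ((continuous_tr2 hg hhc).sub continuous_const)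
  have hint : ∀ ψ : E n → ℝ, Continuous ψ → IntegrableOn ψ (ball (0 : E n) 1) := fun ψ hψ =>
    (hψ.continuousOn.integrableOn_compact (isCompact_closedBall (0 : E n) 1)).mono_set
      ball_subset_closedBall
  -- the dominating function
  set φ : E n → ℝ := fun x => C * (√(rho g x) * (((gram (g x))⁻¹ * gram (h x)).trace - n)) +
    2 * C * n * √(rho g x) with hφ
  have hφc : Continuous φ := (continuous_const.mul hc2).add (continuous_const.mul hc1)
  have hφeq : ∀ x, rho g x * (C / √(gram (g x)).det *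
      (((gram (g x))⁻¹ * gram (h x)).trace + n)) = φ x := by
    intro x
    have h1 := (hr x).ne'
    simp only [hφ, rho]
    have h2 : (gram (g x)).det * (C / √(gram (g x)).det) = C * √(gram (g x)).det := by
      nth_rw 1 [hrr x]
      field_simp
    rw [← mul_assoc, h2]
    ring
  have hφi : IntegrableOn φ (ball (0 : E n) 1) := hint φ hφc
  have hφI : ∫ x in ball (0 : E n) 1, φ x = C * TT g h + 2 * C * n * vo g := by
    simp only [hφ]
    rw [integral_add ((hint _ hc2).const_mul _) ((hint _ hc1).const_mul _), integral_const_mul,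
      integral_const_mul]
    rfl
  have hρ0 : ∀ x, 0 ≤ rho g x := fun x => (hd x).le
  have hJi : IntegrableOn (fun x => rho g x * J x) (ball (0 : E n) 1) := by
    refine Integrable.mono' hφi (hdc.measurable.mul hJm).aestronglyMeasurable
      (Filter.Eventually.of_forall fun x => ?_)
    rw [Real.norm_of_nonneg (mul_nonneg (hρ0 x) (hJ0 x)), ← hφeq]
    exact mul_le_mul_of_nonneg_left (Q3 x) (hρ0 x)
  have hBi : IntegrableOn (fun x => rho g x * B x) (ball (0 : E n) 1) := by
    refine Integrable.mono' hφi (hdc.measurable.mul hBm).aestronglyMeasurable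
      (Filter.Eventually.of_forall fun x => ?_)
    rw [Real.norm_of_nonneg (mul_nonneg (hρ0 x) (hB0 x)), ← hφeq]
    exact mul_le_mul_of_nonneg_left (Q4 x) (hρ0 x)
  -- the hypothesis
  have K1 : ∀ x, (∫⁻ v in {v | g x v v ≤ 1}, ENNReal.ofReal (g x v v) *
      ENNReal.ofReal (rho g x)) = ENNReal.ofReal (C * n * √(rho g x)) := by
    intro x
    rw [lintegral_mul_const' _ _ ENNReal.ofReal_ne_top, Q1 x, rho,
      ← ENNReal.ofReal_mul (by positivity)]
    congr 1
    have := (hr x).ne'
    rw [div_mul_eq_mul_div, div_eq_iff this]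
    nth_rw 1 [hrr x]
    ring
  have K2 : ∀ x, (∫⁻ v in {v | g x v v ≤ 1}, ENNReal.ofReal (√(g x v v) * √(h x v v)) *
      ENNReal.ofReal (rho g x)) = ENNReal.ofReal (rho g x * J x) := by
    intro x
    rw [lintegral_mul_const' _ _ ENNReal.ofReal_ne_top, Q2 x, ← ENNReal.ofReal_mul (hJ0 x)]
    rw [mul_comm]
  unfold A2 A1 at H
  simp only [K1, K2] at H
  have hi0 : IntegrableOn (fun x => C * n * √(rho g x)) (ball (0 : E n) 1) :=
    hint _ (continuous_const.mul hc1)
  rw [← ofReal_integral_eq_lintegral_ofReal hJi (Eventually.of_forall fun x =>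
      mul_nonneg (hρ0 x) (hJ0 x)),
    ← ofReal_integral_eq_lintegral_ofReal hi0
      (Eventually.of_forall fun x => by positivity), ← ENNReal.ofReal_mul hk,
    ENNReal.ofReal_le_ofReal_iff (integral_nonneg fun x => mul_nonneg (hρ0 x) (hJ0 x)),
    integral_const_mul] at H
  have H' : k * (C * n * vo g) ≤ ∫ x in ball (0 : E n) 1, rho g x * J x := H
  refine ⟨hBi, ?_⟩
  have hi1 : IntegrableOn (fun x => 2 * (rho g x * J x)) (ball (0 : E n) 1) := hJi.const_mul 2
  have hi2 : IntegrableOn (fun x => φ x - 2 * (rho g x * J x)) (ball (0 : E n) 1) :=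
    hφi.sub hi1
  have hi3 : IntegrableOn (fun x => lam / 2 * (φ x - 2 * (rho g x * J x)))
      (ball (0 : E n) 1) := hi2.const_mul _
  have hi4 : IntegrableOn (fun x => 1 / (2 * lam) * (2 * φ x)) (ball (0 : E n) 1) :=
    (hφi.const_mul 2).const_mul _
  have hRi : IntegrableOn (fun x => lam / 2 * (φ x - 2 * (rho g x * J x)) +
      1 / (2 * lam) * (2 * φ x)) (ball (0 : E n) 1) := hi3.add hi4
  have hle : ∫ x in ball (0 : E n) 1, rho g x * B x ≤
      ∫ x in ball (0 : E n) 1, (lam / 2 * (φ x - 2 * (rho g x * J x)) +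
        1 / (2 * lam) * (2 * φ x)) := by
    refine integral_mono hBi hRi fun x => ?_
    show rho g x * B x ≤ lam / 2 * (φ x - 2 * (rho g x * J x)) + 1 / (2 * lam) * (2 * φ x)
    have h1 := mul_le_mul_of_nonneg_left (Q5 x lam hlam) (hρ0 x)
    refine h1.trans (le_of_eq ?_)
    rw [← hφeq x]
    ring
  have e1 : ∫ x in ball (0 : E n) 1, (lam / 2 * (φ x - 2 * (rho g x * J x)) +
        1 / (2 * lam) * (2 * φ x)) =
      lam / 2 * ((C * TT g h + 2 * C * n * vo g) -
        2 * ∫ x in ball (0 : E n) 1, rho g x * J x) +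
      1 / (2 * lam) * (2 * (C * TT g h + 2 * C * n * vo g)) := by
    rw [integral_add hi3 hi4, integral_const_mul, integral_const_mul,
        integral_const_mul, integral_sub hφi hi1, integral_const_mul, hφI]
  refine hle.trans ?_
  rw [e1]
  have h6 : lam / 2 * ((C * TT g h + 2 * C * n * vo g) -
        2 * ∫ x in ball (0 : E n) 1, rho g x * J x) ≤
      lam / 2 * (C * TT g h + 2 * (1 - k) * (C * n * vo g)) := by
    refine mul_le_mul_of_nonneg_left ?_ (by positivity)
    linarith
  have h7 : 1 / (2 * lam) * (2 * (C * TT g h + 2 * C * n * vo g)) =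
      1 / (2 * lam) * (2 * C * (TT g h + 2 * n * vo g)) := by ring
  rw [h7]
  linarith

end Pool.Agent.W2helper98.KS
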